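import Mathlib
import Pool.Agent.H81.Door

open scoped MeasureTheory

namespace Pool.Agent.Results.MP_d572aa_gt.DoorQ1

/-- A convex body in `ℝ³`. -/
def IsConvexBody (K : Set (EuclideanSpace ℝ (Fin 3))) : Prop :=
  IsCompact K ∧ Convex ℝ K ∧ (interior K).Nonempty

/-- A door: a compact convex subset of the plane `H = {x₃ = 0}` with interior points in `H`. -/
def IsDoor (D : Set (EuclideanSpace ℝ (Fin 3))) : Prop :=
  IsCompact D ∧ Convex ℝ D ∧ (∀ x ∈ D, x 2 = 0) ∧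
    ∃ p ∈ D, ∃ r : ℝ, 0 < r ∧ ∀ x : EuclideanSpace ℝ (Fin 3), x 2 = 0 → dist x p < r → x ∈ D

/-- The map `x ↦ R x + b`. -/
noncomputable def move (R : Matrix (Fin 3) (Fin 3) ℝ) (b x : EuclideanSpace ℝ (Fin 3)) :
    EuclideanSpace ℝ (Fin 3) :=
  WithLp.toLp 2 (R.mulVec x.ofLp) + b

/-- `K` can be moved through `D` by a continuous path of orientation-preserving rigid motions
`x ↦ R t x + b t`, `R t ∈ SO(3)`, `0 ≤ t ≤ 1`. -/
def CanPass (K D : Set (EuclideanSpace ℝ (Fin 3))) : Prop :=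
  ∃ (R : ℝ → Matrix (Fin 3) (Fin 3) ℝ) (b : ℝ → EuclideanSpace ℝ (Fin 3)),
    ContinuousOn R (Set.Icc 0 1) ∧ ContinuousOn b (Set.Icc 0 1) ∧
    (∀ t ∈ Set.Icc (0 : ℝ) 1, R t ∈ Matrix.specialOrthogonalGroup (Fin 3) ℝ) ∧
    (∀ x ∈ K, 0 < move (R 0) (b 0) x 2) ∧
    (∀ x ∈ K, move (R 1) (b 1) x 2 < 0) ∧
    ∀ t ∈ Set.Icc (0 : ℝ) 1, ∀ x ∈ K, move (R t) (b t) x 2 = 0 →
      move (R t) (b t) x ∈ D

/-- `μHE[2]` is the two-dimensional Hausdorff measure normalised to be the area on planes. -/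
theorem result : ∃ K D : Set (EuclideanSpace ℝ (Fin 3)),
    IsConvexBody K ∧ IsDoor D ∧ CanPass K D ∧
      ∀ u : EuclideanSpace ℝ (Fin 3), ‖u‖ = 1 →
        μHE[2] D < μHE[2] ((fun x => x - inner ℝ u x • u) '' K) :=
  ⟨H81.Door.K, H81.Door.D, ⟨H81.Door.K_compact, H81.Door.K_convex, H81.Door.K_int⟩,
    ⟨H81.Door.D_compact, H81.Door.D_convex, fun _ hx => hx.1, H81.Door.D_int⟩,
    ⟨H81.Door.rot, H81.Door.tr, H81.Door.rot_cont.continuousOn, H81.Door.tr_cont.continuousOn,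
      fun t _ => H81.Door.rot_mem t, H81.Door.start_pos, H81.Door.end_neg,
      fun t _ => H81.Door.pass t⟩,
    fun _ hu => H81.Door.area_lt hu⟩

end Pool.Agent.Results.MP_d572aa_gt.DoorQ1
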